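import Pool.Agent.Lib.MP_685082_co.KMain

namespace Pool.Agent.Results.MP_685082_co.FullCone

open Pool.Agent.Lib.MP_685082_co.Cone

theorem result : ∀ t n : ℕ, 1 ≤ t → (Gen t n).Finite ∧
    cone n (Euler t) = (Submodule.span NNReal (Gen t n) : Set (Finset ℕ → ℝ)) :=
  fun t n ht => ⟨gen_finite t n, cone_eq t n ht⟩

end Pool.Agent.Results.MP_685082_co.FullCone
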