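import Pool.Agent.Lib.MP_685082_co.DV.Main

namespace Pool.Agent.Results.MP_685082_co.HardFromFive

open Pool.Agent.Lib.MP_685082_co

/-- For every `n ≥ 5`, every language in NP reduces to membership in the set of flag f-vectors of
Eulerian posets of rank `n + 1`, by a reduction with a checkable hint that depends on the length
of the input only. -/
theorem result : ∀ n : ℕ, 5 ≤ n → ∀ L ∈ N68a2faeb.NP, DV.Red L (NX.FlagLang n) :=
  fun _ hn _ hL => DV.main hn hL

end Pool.Agent.Results.MP_685082_co.HardFromFive
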