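import Pool.Agent.Lib.MP_685082_co.NX.Main

namespace Pool.Agent.Results.MP_685082_co.NexpComplete

open Pool.Agent.Lib.MP_685082_co.NX

/-- For all large `n`, membership in the set of flag f-vectors of Eulerian posets of rank `n + 1`
is complete for nondeterministic exponential time. -/
theorem result : ∃ n₀ : ℕ, ∀ n, n₀ ≤ n → N793a5b8e.IsCompleteFor NEXP (FlagLang n) := main

end Pool.Agent.Results.MP_685082_co.NexpComplete
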