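import Pool.Agent.Lib.MP_685082_co.Main

namespace Pool.Agent.Results.MP_685082_co.RankFive

open Pool.Agent.Lib.MP_685082_co

/-- Exact closed form description of the flag f-vectors of Eulerian posets of rank five. -/
theorem result (v : Finset ℕ → ℤ) :
    IsFlagVec 4 v ↔ ∃ n m t I : ℕ, Cond (min n m) (max n m) t I ∧
      v ∅ = 1 ∧ v {1} = n ∧ v {2} = n + t ∧ v {3} = m + t ∧ v {4} = m ∧
      v {1, 2} = 2 * (n + t) ∧ v {1, 3} = I + 2 * t ∧ v {1, 4} = I ∧ v {2, 3} = I + 2 * t ∧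
      v {2, 4} = I + 2 * t ∧ v {3, 4} = 2 * (m + t) ∧ v {1, 2, 3} = 2 * (I + 2 * t) ∧
      v {1, 2, 4} = 2 * (I + 2 * t) ∧ v {1, 3, 4} = 2 * (I + 2 * t) ∧
      v {2, 3, 4} = 2 * (I + 2 * t) ∧ v {1, 2, 3, 4} = 4 * (I + 2 * t) :=
  main v

end Pool.Agent.Results.MP_685082_co.RankFive
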